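import Pool.Agent.T9h88.XC.Main2

/-!
# MP_e361f4_lc: linear and mixed binary programs for the Euclidean TSP are exponentially large

A linear or mixed binary linear program (a compact or extended formulation) for the travelling
salesman problem with `n` labelled points represents every tour by a feasible point, and every
point set by an affine objective function whose value at the point of a tour is the Euclidean
length of the tour; it is exact if its minimum is the length of a shortest tour, for all sets of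
`n` distinct integer points of the plane.  We show that the number `r` of inequalities and the
number `k` of binary variables of such a program satisfy `2 ^ k (r + 1) ≥ 2 ^ (c n ^ (1 / 3))`,
for any number of equations and continuous variables, and for coordinates of absolute value at
most `n ^ 2`.  The same holds if the program is only required to have an additive error of `1`
(so that it can decide whether there is a tour of length at most `B` for integers `B` only) and a
relative error of order `n ^ (- 5 / 3)`.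

The proof embeds the matrix of unique disjointness: a board of tangent circles (built by the
library `Pool.Agent.T9h21.TB`) has a row for every bit and a column for every pair of bits; its
shortest tours correspond to the sets of bits, and small displacements of some centres reward
every bit of a second set `a` and penalise every pair of bits of `a`.  The lower bounds for
nonnegative factorisations are those of Kaibel and Weltge, and of Razborov (corruption).
-/

set_option autoImplicit false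

namespace Pool.Agent.Results.MP_e361f4_lc.LinearPrograms

/-- The permutation `σ` is a closed tour through the places `0, ..., n - 1`, where `σ i` is the
place after `i`: every place is reached from every other one. -/
def IsTour {n : ℕ} (σ : Equiv.Perm (Fin n)) : Prop := ∀ i j, ∃ k : ℕ, (σ ^ k) i = j

/-- The Euclidean length of the closed tour `σ` through the points `p`. -/
noncomputable def len {n : ℕ} (p : Fin n → ℤ × ℤ) (σ : Equiv.Perm (Fin n)) : ℝ :=
  ∑ i, √((((p i).1 : ℝ) - (p (σ i)).1) ^ 2 + (((p i).2 : ℝ) - (p (σ i)).2) ^ 2)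

/-- The instances: `n` distinct integer points of the plane with coordinates of absolute value at
most `N`. -/
def Inst {n : ℕ} (N : ℤ) (p : Fin n → ℤ × ℤ) : Prop :=
  Function.Injective p ∧ ∀ i, |(p i).1| ≤ N ∧ |(p i).2| ≤ N

/-- The constraints of a mixed binary linear program with `r` inequalities and `k` binary
variables, on a real vector space: any number of equations (an affine subspace), inequalities
`0 ≤ g i x`, and affine functions `h j` that must take the values `0` or `1`. -/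
structure Program (V : Type*) [AddCommGroup V] [Module ℝ V] (r k : ℕ) where
  E : AffineSubspace ℝ V
  g : Fin r → V →ᵃ[ℝ] ℝ
  h : Fin k → V →ᵃ[ℝ] ℝ

variable {V : Type*} [AddCommGroup V] [Module ℝ V] {r k : ℕ}

/-- The feasible points. -/
def Program.Feasible (P : Program V r k) (x : V) : Prop :=
  x ∈ P.E ∧ (∀ i, 0 ≤ P.g i x) ∧ ∀ j, P.h j x = 0 ∨ P.h j x = 1

/-- The program solves the Euclidean TSP for `n` points with coordinates up to `N`: with suitable
feasible points `y σ` for the tours and affine objective functions `w p` for the instances, the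
value of `w p` at `y σ` is the length of `σ`, and no feasible point has a smaller value than a
shortest tour. -/
def Exact (P : Program V r k) (n : ℕ) (N : ℤ) : Prop :=
  ∃ (y : Equiv.Perm (Fin n) → V) (w : (Fin n → ℤ × ℤ) → V →ᵃ[ℝ] ℝ),
    (∀ σ, IsTour σ → P.Feasible (y σ)) ∧
    ∀ p, Inst N p → (∀ σ, IsTour σ → w p (y σ) = len p σ) ∧
      ∀ x, P.Feasible x → ∃ σ, IsTour σ ∧ len p σ ≤ w p x

/-- The same with an additive error `1` and a relative error `η`. -/
def Approx (P : Program V r k) (n : ℕ) (N : ℤ) (η : ℝ) : Prop :=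
  ∃ (y : Equiv.Perm (Fin n) → V) (w : (Fin n → ℤ × ℤ) → V →ᵃ[ℝ] ℝ),
    (∀ σ, IsTour σ → P.Feasible (y σ)) ∧
    ∀ p, Inst N p → (∀ σ, IsTour σ → |w p (y σ) - len p σ| ≤ 1 + η * len p σ) ∧
      ∀ x, P.Feasible x → ∃ σ, IsTour σ ∧ (1 - η) * len p σ - 1 ≤ w p x

open T9h88.XC in
theorem len_eq {n : ℕ} (p : Fin n → ℤ × ℤ) (σ : Equiv.Perm (Fin n)) :
    len p σ = ∑ i, Pool.Agent.ETSP.eucl (p i) (p (σ i)) := by
  unfold len
  refine Finset.sum_congr rfl fun i _ => ?_
  rw [eucl_comm, eucl_eq]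

/-- the size of the gadget -/
theorem size {n : ℕ} (x : ℝ) (hx : x = (n : ℝ) ^ (1 / 3 : ℝ)) (hx18 : 18 ≤ x) :
    1 ≤ ⌊x / 18⌋₊ ∧ 5000 * ⌊x / 18⌋₊ ^ 3 ≤ n ∧ (⌊x / 18⌋₊ : ℝ) ≤ x / 18 ∧
      x / 18 - 1 < ⌊x / 18⌋₊ ∧ x ^ 3 = n := by
  have h3 : x ^ 3 = n := by
    rw [hx, ← Real.rpow_natCast, ← Real.rpow_mul (Nat.cast_nonneg _)]
    norm_num
  have h1 : (⌊x / 18⌋₊ : ℝ) ≤ x / 18 := Nat.floor_le (by linarith)
  refine ⟨?_, ?_, h1, by linarith [Nat.lt_floor_add_one (x / 18)], h3⟩
  · rw [Nat.one_le_floor_iff]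
    linarith
  · have h2 : (5000 * (⌊x / 18⌋₊ : ℝ) ^ 3) ≤ n := by
      have h4 : (⌊x / 18⌋₊ : ℝ) ^ 3 ≤ (x / 18) ^ 3 := pow_le_pow_left₀ (Nat.cast_nonneg _) h1 3
      rw [← h3]
      have h5 : (x / 18) ^ 3 = x ^ 3 / 5832 := by ring
      rw [h5] at h4
      have h6 : 0 ≤ x ^ 3 := by positivity
      linarith
    exact_mod_cast h2

theorem exact_bound (P : Program V r k) {n : ℕ} (hn : 10 ^ 7 ≤ n) (hP : Exact P n ((n : ℤ) ^ 2)) :
    (2 : ℝ) ^ ((n : ℝ) ^ (1 / 3 : ℝ) / 50) ≤ 2 ^ k * (r + 1) := by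
  set x := (n : ℝ) ^ (1 / 3 : ℝ) with hx
  have hx215 : 215 ≤ x := by
    have h1 : ((215 : ℝ) ^ 3) ^ (1 / 3 : ℝ) ≤ x := by
      refine Real.rpow_le_rpow (by norm_num) ?_ (by norm_num)
      have : ((10 ^ 7 : ℕ) : ℝ) ≤ n := by exact_mod_cast hn
      push_cast at this
      linarith
    rwa [← Real.rpow_natCast, ← Real.rpow_mul (by norm_num),
      show ((3 : ℕ) : ℝ) * (1 / 3) = 1 by norm_num, Real.rpow_one] at h1
  obtain ⟨hm, hn5, hm1, hm2, -⟩ := size x hx (by linarith)
  set m := ⌊x / 18⌋₊ with hmdef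
  obtain ⟨y, w, hy, hw⟩ := hP
  have hmain := T9h88.XC.main (k := k) hm hn5 P.E P.g P.h y w hy (fun p h1 h2 => by
    obtain ⟨h3, h4⟩ := hw p ⟨h1, h2⟩
    refine ⟨fun σ hσ => by rw [h3 σ hσ, len_eq], fun z hz1 hz2 hz3 => ?_⟩
    obtain ⟨σ, hσ, hle⟩ := h4 z ⟨hz1, hz2, hz3⟩
    exact ⟨σ, hσ, by rwa [← len_eq]⟩)
  have hmr : (3 : ℝ) ^ m ≤ (2 ^ k * (r + 1) + 1) * 2 ^ m := by exact_mod_cast hmain
  have hS : (1 : ℝ) ≤ 2 ^ k * (r + 1) := by
    have h1 : (1 : ℝ) ≤ 2 ^ k := one_le_pow₀ (by norm_num)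
    have h2 : (0 : ℝ) ≤ r := Nat.cast_nonneg _
    nlinarith
  have h32 : (3 / 2 : ℝ) ^ m ≤ 2 * (2 ^ k * (r + 1)) := by
    rw [div_pow, div_le_iff₀ (by positivity)]
    have : (0 : ℝ) ≤ 2 ^ m := by positivity
    nlinarith
  have hsq : (2 : ℝ) ^ (1 / 2 : ℝ) ≤ 3 / 2 := by
    rw [← Real.sqrt_eq_rpow]
    exact Real.sqrt_le_iff.2 ⟨by norm_num, by norm_num⟩
  have hpow : (2 : ℝ) ^ (x / 50) * 2 ≤ (3 / 2) ^ m := by
    calc (2 : ℝ) ^ (x / 50) * 2 = 2 ^ (x / 50 + 1) := by
          rw [Real.rpow_add (by norm_num), Real.rpow_one]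
      _ ≤ 2 ^ ((1 / 2 : ℝ) * m) := by
          refine Real.rpow_le_rpow_of_exponent_le (by norm_num) ?_
          linarith
      _ = ((2 : ℝ) ^ (1 / 2 : ℝ)) ^ m := by
          rw [Real.rpow_mul (by norm_num), Real.rpow_natCast]
      _ ≤ (3 / 2) ^ m := pow_le_pow_left₀ (by positivity) hsq m
  linarith

theorem approx_bound (P : Program V r k) {n : ℕ} (hn : 10 ^ 30 ≤ n)
    (hP : Approx P n ((n : ℤ) ^ 3) (1 / (10 ^ 5 * (n : ℝ) ^ (5 / 3 : ℝ)))) :
    (2 : ℝ) ^ ((n : ℝ) ^ (1 / 3 : ℝ) / 10 ^ 4) ≤ 2 ^ k * (r + 1) := by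
  set x := (n : ℝ) ^ (1 / 3 : ℝ) with hx
  have hxb : (10 : ℝ) ^ 10 ≤ x := by
    have h1 : (((10 : ℝ) ^ 10) ^ 3) ^ (1 / 3 : ℝ) ≤ x := by
      refine Real.rpow_le_rpow (by norm_num) ?_ (by norm_num)
      have : ((10 ^ 30 : ℕ) : ℝ) ≤ n := by exact_mod_cast hn
      push_cast at this
      linarith
    rwa [← Real.rpow_natCast, ← Real.rpow_mul (by norm_num),
      show ((3 : ℕ) : ℝ) * (1 / 3) = 1 by norm_num, Real.rpow_one] at h1
  obtain ⟨hm, hn5, hm1, hm2, hx3⟩ := size x hx (by linarith)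
  set m := ⌊x / 18⌋₊ with hmdef
  have hx0 : 0 < x := by linarith
  have hm0 : (0 : ℝ) ≤ m := Nat.cast_nonneg _
  have hmx : (m : ℝ) ^ 2 ≤ x ^ 2 / 324 := by
    have := pow_le_pow_left₀ hm0 hm1 2
    rw [div_pow] at this
    norm_num at this
    linarith
  have hx5 : (n : ℝ) ^ (5 / 3 : ℝ) = x ^ 5 := by
    rw [hx, ← Real.rpow_natCast, ← Real.rpow_mul (Nat.cast_nonneg _)]
    norm_num
  rw [hx5] at hP
  obtain ⟨y, w, hy, hw⟩ := hP
  have hmain := T9h88.XC.main2 (k := k) (l := m / 40) hm hn5 (by omega) P.E P.g P.h y w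
    (η := 1 / (10 ^ 5 * x ^ 5)) (by positivity) ?_ hy (fun p h1 h2 => by
    obtain ⟨h3, h4⟩ := hw p ⟨h1, h2⟩
    refine ⟨fun σ hσ => by rw [← len_eq]; exact h3 σ hσ, fun z hz1 hz2 hz3 => ?_⟩
    obtain ⟨σ, hσ, hle⟩ := h4 z ⟨hz1, hz2, hz3⟩
    exact ⟨σ, hσ, by rwa [← len_eq]⟩)
  · set S : ℝ := 2 ^ k * (r + 1) with hS
    have hS0 : 0 < S := by positivity
    have hc0 := T9h88.XC.c0_pos
    set l : ℕ := m / 40 with hl
    have hl1 : (m : ℝ) / 40 - 1 ≤ l := by
      have : m < 40 * (l + 1) := by omega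
      have : (m : ℝ) < 40 * (l + 1) := by exact_mod_cast this
      linarith
    have hl0 : (0 : ℝ) ≤ l := Nat.cast_nonneg _
    have h1 : Real.exp (x / 7200 - 1) ≤ 20 * S * (2 * (m : ℝ) ^ 2 + 3) := by
      have h2 : Real.exp (T9h88.XC.c0 * l) ≤ 20 * S * (2 * (m : ℝ) ^ 2 + 3) := by
        have h3 : Real.exp (T9h88.XC.c0 * l) * Real.exp (-(T9h88.XC.c0 * l)) = 1 := by
          rw [← Real.exp_add, add_neg_cancel, Real.exp_zero]
        have h4 := Real.exp_pos (T9h88.XC.c0 * l)
        have h5 := mul_le_mul_of_nonneg_left hmain h4.le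
        have h6 : Real.exp (T9h88.XC.c0 * l) * (20 * S * (2 * (m : ℝ) ^ 2 + 3) *
            Real.exp (-(T9h88.XC.c0 * l))) = 20 * S * (2 * (m : ℝ) ^ 2 + 3) := by
          calc _ = 20 * S * (2 * (m : ℝ) ^ 2 + 3) *
                (Real.exp (T9h88.XC.c0 * l) * Real.exp (-(T9h88.XC.c0 * l))) := by ring
            _ = _ := by rw [h3, mul_one]
        linarith
      refine le_trans (Real.exp_le_exp.2 ?_) h2
      have h3 : 1 / 10 * (l : ℝ) ≤ T9h88.XC.c0 * l := mul_le_mul_of_nonneg_right hc0.le hl0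
      linarith
    have h2 : 20 * (2 * (m : ℝ) ^ 2 + 3) ≤ x ^ 2 := by nlinarith
    have h3 : Real.exp (x / 7200 - 1) ≤ S * x ^ 2 := by
      have := mul_le_mul_of_nonneg_left h2 hS0.le
      linarith
    have h4 : x ^ 2 ≤ Real.exp (x / 20000) := by
      have h5 : x / 80000 ≤ Real.exp (x / 80000) := by
        linarith [Real.add_one_le_exp (x / 80000)]
      have h6 : (x / 80000) ^ 4 ≤ Real.exp (x / 20000) := by
        calc (x / 80000) ^ 4 ≤ Real.exp (x / 80000) ^ 4 :=
              pow_le_pow_left₀ (by positivity) h5 4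
          _ = Real.exp (x / 20000) := by
              rw [← Real.exp_nat_mul]
              congr 1
              push_cast
              ring
      refine le_trans ?_ h6
      have h7 : (80000 : ℝ) ^ 4 ≤ x ^ 2 := by
        have : ((10 : ℝ) ^ 10) ^ 2 ≤ x ^ 2 := pow_le_pow_left₀ (by norm_num) hxb 2
        refine le_trans (by norm_num) this
      rw [div_pow, le_div_iff₀ (by norm_num)]
      have h8 : 0 ≤ x ^ 2 := by positivity
      calc x ^ 2 * 80000 ^ 4 ≤ x ^ 2 * x ^ 2 := mul_le_mul_of_nonneg_left h7 h8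
        _ = x ^ 4 := by ring
    have h5 : (2 : ℝ) ^ (x / 10 ^ 4) * Real.exp (x / 20000) ≤ Real.exp (x / 7200 - 1) := by
      rw [Real.rpow_def_of_pos (by norm_num), ← Real.exp_add]
      refine Real.exp_le_exp.2 ?_
      have h6 : Real.log 2 < 0.6931471808 := Real.log_two_lt_d9
      have h7 : Real.log 2 * (x / 10 ^ 4) ≤ 0.7 * (x / 10 ^ 4) :=
        mul_le_mul_of_nonneg_right (by linarith) (by positivity)
      linarith
    have h6 : (2 : ℝ) ^ (x / 10 ^ 4) * x ^ 2 ≤ S * x ^ 2 := by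
      have h7 : (0 : ℝ) ≤ 2 ^ (x / 10 ^ 4) := by positivity
      have := mul_le_mul_of_nonneg_left h4 h7
      linarith
    exact le_of_mul_le_mul_right h6 (by positivity)
  · rw [← hx3]
    have h1 : 1 / (10 ^ 5 * x ^ 5) * (35000 * (m : ℝ) ^ 2 * x ^ 3) =
        (35000 * (m : ℝ) ^ 2) / (10 ^ 5 * x ^ 2) := by
      field_simp
    rw [h1, div_le_iff₀ (by positivity)]
    nlinarith

/-- **Programs for the Euclidean TSP are exponentially large.**  Let `P` be a mixed binary linear
program with `r` inequalities and `k` binary variables.  If `n ≥ 10 ^ 7` and `P` is exact for all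
sets of `n` integer points with coordinates up to `n ^ 2`, then
`2 ^ k (r + 1) ≥ 2 ^ (n ^ (1 / 3) / 50)`.  If `n ≥ 10 ^ 30` and `P` has an additive error of at
most `1` and a relative error of at most `1 / (10 ^ 5 n ^ (5 / 3))` for all sets of `n` integer
points with coordinates up to `n ^ 3`, then `2 ^ k (r + 1) ≥ 2 ^ (n ^ (1 / 3) / 10 ^ 4)`. -/
theorem result (P : Program V r k) (n : ℕ) :
    (10 ^ 7 ≤ n → Exact P n ((n : ℤ) ^ 2) →
      (2 : ℝ) ^ ((n : ℝ) ^ (1 / 3 : ℝ) / 50) ≤ 2 ^ k * (r + 1)) ∧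
    (10 ^ 30 ≤ n → Approx P n ((n : ℤ) ^ 3) (1 / (10 ^ 5 * (n : ℝ) ^ (5 / 3 : ℝ))) →
      (2 : ℝ) ^ ((n : ℝ) ^ (1 / 3 : ℝ) / 10 ^ 4) ≤ 2 ^ k * (r + 1)) :=
  ⟨fun hn hP => exact_bound P hn hP, fun hn hP => approx_bound P hn hP⟩

end Pool.Agent.Results.MP_e361f4_lc.LinearPrograms
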