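import Pool.Agent.T9h21.TB.ArrM

/-!
# The non-monotone gates of every circuit for short tours change often

The points are cells of the `N` times `N` grid; a point set is given to the circuit by its
indicator bits.  The circuits are arbitrary: the gates in the set `T` (for example the NOT gates of
a Boolean circuit) need not be monotone, and there may be any number of them.
-/

set_option autoImplicit false

namespace Pool.Agent.Results.MP_e361f4_lc.NonmonotoneChanges

/-- the Euclidean distance of two points of the `N` times `N` grid -/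
noncomputable def dst {N : ℕ} (p q : Fin N × Fin N) : ℝ :=
  √(((p.1.val : ℝ) - q.1.val) ^ 2 + ((p.2.val : ℝ) - q.2.val) ^ 2)

/-- the Euclidean length of the closed tour that visits the points of `L` in this order -/
noncomputable def len {N : ℕ} (L : List (Fin N × Fin N)) : ℝ :=
  (List.zipWith dst L (L.rotate 1)).sum

/-- `L` lists the points of the set with indicator function `x`, each one once -/
def IsTour {N : ℕ} (x : Fin N × Fin N → Bool) (L : List (Fin N × Fin N)) : Prop :=
  L.Nodup ∧ ∀ q, q ∈ L ↔ x q = true

/-- A circuit with inputs `I` and `size` gates that compute real numbers: gate `i` applies `op i`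
to its `wd i` arguments, which are inputs or earlier gates.  A gate outside the set `T` is
monotone and has at most two arguments; a gate in `T` is an arbitrary function of the outcomes of
threshold tests of its arguments, one for each of them. -/
structure Circuit (I : Type) where
  size : ℕ
  T : Finset (Fin size)
  wd : Fin size → ℕ
  arg : ∀ i, Fin (wd i) → I ⊕ Fin size
  op : ∀ i, (Fin (wd i) → ℝ) → ℝ
  θ : ∀ i, Fin (wd i) → ℝ
  acyclic : ∀ i j k, arg i j = Sum.inr k → k < i
  mono : ∀ i ∉ T, wd i ≤ 2 ∧ Monotone (op i)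
  thr : ∀ i ∈ T, ∀ z z' : Fin (wd i) → ℝ, (∀ j, θ i j ≤ z j ↔ θ i j ≤ z' j) → op i z = op i z'

/-- the value of gate `i` on input `x` -/
noncomputable def Circuit.val {I : Type} (C : Circuit I) (x : I → Bool) (i : Fin C.size) : ℝ :=
  C.op i fun j =>
    match _h : C.arg i j with
    | Sum.inl q => if x q = true then 1 else 0
    | Sum.inr k => C.val x k
termination_by i.val
decreasing_by exact C.acyclic i j k _h

/-- the threshold test of argument `j` of gate `i` succeeds on input `x` -/
def Circuit.test {I : Type} (C : Circuit I) (x : I → Bool) (i : Fin C.size) (j : Fin (C.wd i)) :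
    Prop :=
  C.θ i j ≤ match C.arg i j with
    | Sum.inl q => if x q = true then 1 else 0
    | Sum.inr k => C.val x k

theorem Circuit.val_eq {I : Type} (C : Circuit I) (x : I → Bool) (i : Fin C.size) :
    C.val x i = C.op i (fun j => Sum.elim (Pool.Agent.H560R2.bit x) (C.val x) (C.arg i j)) := by
  rw [Circuit.val]
  congr 1
  funext j
  split
  · next q h => rw [h]; rfl
  · next k h => rw [h]; rfl

theorem Circuit.test_iff {I : Type} (C : Circuit I) (x : I → Bool) (i : Fin C.size)
    (j : Fin (C.wd i)) : C.test x i j ↔ Pool.Agent.H560R2.prb C.arg C.θ C.val x i j := by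
  unfold Circuit.test Pool.Agent.H560R2.prb
  cases h : C.arg i j <;> rfl

theorem len_eq {N : ℕ} (L : List (Fin N × Fin N)) : len L = Pool.Agent.T9h21.TB.gtl L := by
  have h0 : ∀ p q : Fin N × Fin N, dst p q = Pool.Agent.ETSP.eucl (Pool.Agent.T9h21.TB.cel p)
      (Pool.Agent.T9h21.TB.cel q) := by
    intro p q
    unfold dst Pool.Agent.ETSP.eucl Pool.Agent.ETSP.nrm Pool.Agent.T9h21.TB.cel
    congr 1
    simp only [Prod.fst_sub, Prod.snd_sub]
    push_cast
    ring
  have h1 : ∀ (l : List (Fin N × Fin N)) (a b : Fin N × Fin N),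
      (List.zipWith dst (a :: l) (l ++ [b])).sum =
        Pool.Agent.ETSP.pl (fun p q => Pool.Agent.ETSP.eucl (Pool.Agent.T9h21.TB.cel p)
          (Pool.Agent.T9h21.TB.cel q)) a l b := by
    intro l
    induction l with
    | nil => intro a b; simp [Pool.Agent.ETSP.pl, h0]
    | cons x l ih =>
      intro a b
      rw [List.cons_append, List.zipWith_cons_cons, List.sum_cons, ih, h0]
      rfl
  cases L with
  | nil => rfl
  | cons a l =>
    unfold len Pool.Agent.T9h21.TB.gtl
    rw [List.rotate_cons_succ, List.rotate_zero, h1]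
    rfl

/-- For every `ε > 0` and all sufficiently large `D` and all `N ≥ D` there is a bound `B` with the
following property.  Let `C` be a circuit, whose inputs are the indicator bits of a set of points
of the `N` times `N` grid and whose value stays below the threshold `τ` whenever the set has a
closed tour of length at most `B` and reaches it whenever all closed tours have length at least
`B + 1 / 69`.  Then `C` has size at least `exp (D ^ (1 - ε))`, or its gates in `T` change often:
there is a chain of point sets with `(N / D) ^ 2` steps, all with closed tours of length at most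
`B`, such that in every step the outcome of a threshold test of a gate in `T` changes (and hence
the product of the numbers `wd i + 1` over the gates in `T` exceeds `(N / D) ^ 2`). -/
theorem result (ε : ℝ) (hε : 0 < ε) :
    ∃ D₀ : ℕ, ∀ D : ℕ, D₀ ≤ D → ∀ N : ℕ, D ≤ N → ∃ B : ℕ,
      ∀ (C : Circuit (Fin N × Fin N)) (o : Fin C.size) (τ : ℝ),
        (∀ x, (∃ L, IsTour x L ∧ len L ≤ B) → C.val x o < τ) →
        (∀ x, (∀ L, IsTour x L → (B : ℝ) + 1 / 69 ≤ len L) → τ ≤ C.val x o) →
        Real.exp ((D : ℝ) ^ (1 - ε)) ≤ C.size + ∑ i ∈ C.T, (C.wd i : ℝ) ∨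
        ((N / D) ^ 2 < ∏ i ∈ C.T, (C.wd i + 1) ∧
          ∃ x : ℕ → Fin N × Fin N → Bool,
            (∀ i < (N / D) ^ 2, x i ≤ x (i + 1) ∧
              ∃ t ∈ C.T, ∃ j, ¬ (C.test (x i) t j ↔ C.test (x (i + 1)) t j)) ∧
            ∀ i ≤ (N / D) ^ 2, ∃ L, IsTour (x i) L ∧ len L ≤ B) := by
  obtain ⟨D₀, H⟩ := Pool.Agent.T9h21.TB.arr_main ε hε
  refine ⟨D₀, fun D hD N hN => ?_⟩
  obtain ⟨B, HB⟩ := H D hD N hN
  refine ⟨B, fun C o τ h1 h2 => ?_⟩
  have h3 := HB (S := C.size) (T := C.T) (wd := C.wd) (a := C.arg) (op := C.op) (θ := C.θ)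
    (val := C.val) C.acyclic C.mono C.thr (fun x i => C.val_eq x i) o τ
    (fun x ⟨L, hL, hl⟩ => h1 x ⟨L, hL, by rw [len_eq]; exact hl⟩)
    (fun x h => h2 x fun L hL => by rw [len_eq]; exact h L hL)
  rcases h3 with h3 | ⟨x, h4, h5⟩
  · left
    push_cast at h3
    exact h3
  · right
    refine ⟨Pool.Agent.H560R2.chain_leR C.acyclic C.mono C.thr (fun x i => C.val_eq x i) _ x
      (fun i hi => (h4 i hi).1) (fun i hi => (h4 i hi).2), x, fun i hi => ⟨(h4 i hi).1, ?_⟩,
      fun i hi => ?_⟩
    · obtain ⟨t, ht, j, hj⟩ := (h4 i hi).2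
      refine ⟨t, ht, j, fun h => hj ?_⟩
      rw [← Circuit.test_iff, ← Circuit.test_iff]
      exact h
    · obtain ⟨L, hL, hl⟩ := h5 i hi
      exact ⟨L, hL, by rw [len_eq]; exact hl⟩

end Pool.Agent.Results.MP_e361f4_lc.NonmonotoneChanges
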