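import Pool.Agent.T9h21.DP.LowerB
import Pool.Agent.T9h21.DP.Upper

/-!
# Pure dynamic programming for the planar travelling salesman problem

Arora and Mitchell found polynomial time approximation schemes for the planar Euclidean travelling
salesman problem; they use dynamic programming, but also the coordinates of the points. We show that
pure dynamic programming, that is a `(min, +)` circuit on the distances of the points, needs
exponential size for every constant factor: `exp (n / K ^ ρ)` additions for the factor `ρ`, even if
the circuit is only correct for the points of `{0, …, n ^ 4}²`. This is optimal,
`exp (K (n / k ^ ρ + log n ^ 2))` additions are enough for all points. So the least number of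
additions for the factor `ρ` is `exp (n exp (-Θ(ρ)))` as long as `ρ ≤ c log n`, and between
`exp (K log n ^ 2)` and `exp √n` additions the best factor is of the order `log n`.

Proof of the lower bound. The `n` points are put in random cells of a line. For a node `x` of the
circuit and a real number `τ` let `Gt x τ` be the set of the cuts that every monomial of weight at
most `τ` produced at `x` crosses. At the output this contains all cuts (otherwise two distant clusters
give a contradiction), at the variables it is small, `Gt` of an addition gate at `σ + τ` is in the
union of the `Gt` of its operands at `σ` and `τ`, `Gt` of a minimum gate in the `Gt` of each operand.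
The potential of a set of cuts is the sum over the scales `s = R, R ^ 2, …, R ^ L` of the probability
that it contains the content of an interval of `s` cells. So the parse tree of an optimal monomial can
be split in pieces of potential between `2` and `4`, and at least `(L - 2) / 6` of them are determined
by at most three addition gates and the weights there; the sets `Gt x τ` of one gate are approximated
by `6 L + 4` sets. In such a piece the monomial crosses all cuts of a fixed set `D`. The endpoints of
the intervals with content in `D` have to be covered by edges; the contents at different scales are
almost uncorrelated, so the second moment method and McDiarmid's inequality show that this costs at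
least a constant fraction of the length of the line for all but an exponentially small part of the
placements.

Proof of the upper bound. Join the points outside a subset `B` to their nearest points in `B`, twice,
and continue with `B`. The circuit takes the minimum over polynomially many sets `B` with at most three
quarters of the points, given by pairwise independent hash functions; for every tour one of them costs
at most a constant times the length of the tour. After `j` rounds exact formulas are used for the
remaining sets.
-/

set_option autoImplicit false

namespace Pool.Agent.Results.MP_e361f4_lc.PureDynamicPrograms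

open Pool.Agent.T9h48.SC Pool.Agent.T9h48.TSP

/-- **Pure dynamic programming for the planar travelling salesman problem**: `(min, +)` circuits
which approximate the length of a shortest tour of all `n` distinct points of `{0, …, n ^ 4}²` within
the factor `ρ ≥ 1` have at least `exp (n / K ^ ρ)` addition gates if `n ≥ K ^ ρ`, and there are
circuits with at most `exp (K (n / k ^ ρ + log n ^ 2))` addition gates which do so for all `n` distinct
points of `{0, …, N}²`, for all `N`. -/
theorem result :
    ∃ K k : ℝ, 1 < K ∧ 1 < k ∧
      (∀ ρ : ℝ, 1 ≤ ρ → ∀ n : ℕ, K ^ ρ ≤ n → ∀ C : TropCircuit (Fin n × Fin n),
        Solves C (n ^ 4) ρ → Real.exp (n / K ^ ρ) ≤ C.numAdd) ∧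
      ∀ ρ : ℝ, 1 ≤ ρ → ∀ n : ℕ, 2 ≤ n → ∃ C : TropCircuit (Fin n × Fin n),
        (∀ N, Solves C N ρ) ∧
        (C.numAdd : ℝ) ≤ Real.exp (K * (n / k ^ ρ + Real.log n ^ 2)) := by
  obtain ⟨K₁, hK₁, h₁⟩ := Pool.Agent.T9h21.DP.lowerB
  obtain ⟨K₂, k, hK₂, hk, h₂⟩ := Pool.Agent.T9h21.DP.upper
  have hle : K₁ ≤ max K₁ K₂ := le_max_left _ _
  refine ⟨max K₁ K₂, k, hK₁.trans_le hle, hk, ?_, ?_⟩
  · intro ρ hρ n hn C hC
    have h3 : K₁ ^ ρ ≤ (max K₁ K₂) ^ ρ := Real.rpow_le_rpow (by linarith) hle (by linarith)
    have h4 : 0 < K₁ ^ ρ := Real.rpow_pos_of_pos (by linarith) _
    refine le_trans (Real.exp_le_exp.2 ?_) (h₁ ρ hρ n (h3.trans hn) C hC)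
    exact div_le_div_of_nonneg_left (Nat.cast_nonneg _) h4 h3
  · intro ρ hρ n hn
    obtain ⟨C, hC, hadd⟩ := h₂ ρ hρ n hn
    refine ⟨C, hC, hadd.trans (Real.exp_le_exp.2 ?_)⟩
    have h5 : 0 < k ^ ρ := Real.rpow_pos_of_pos (by linarith) _
    exact mul_le_mul_of_nonneg_right (le_max_right _ _) (by positivity)

end Pool.Agent.Results.MP_e361f4_lc.PureDynamicPrograms
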