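import Pool.Agent.T9h21.SD.Main

/-!
# MP_e361f4_lc: semidefinite programs for the Euclidean TSP are exponentially large

A mixed binary semidefinite program for the travelling salesman problem with `n` labelled points
of the plane has a feasible region that does not depend on the positions of the points, a feasible
point for every tour, and for every placement of the labels an affine objective function whose
value at the point of a tour is the Euclidean length of the tour; it is exact if its minimum is
the length of a shortest tour.  We show that the order `r` of its linear matrix inequality and
the number `k` of its binary variables satisfy `2 ^ k (r + 1) ≥ 2 ^ (n ^ (4 / 33) / 1024)`, for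
`n ≥ 10 ^ 30` and placements in the grid `{0, ..., n ^ 2} ^ 2`.  The same holds for placements in
`{0, ..., N} ^ 2`, `N ≥ n ^ 2`, and programs with an additive error `a ≤ N / n ^ 3` and a relative
error `η ≤ 1 / n ^ 3`; so for `N = n ^ 3` an additive error of `1` is allowed.

The proof uses the method of Lee, Raghavendra and Steurer (library `Pool.Agent.TH661.LRS`) for the
knapsack function `(|y| - t) (|y| - t - 1)` of `m = 2 t + 1` bits `y` that are chosen by a function
`S` from `m` blocks of `b` bits.  A board of tangent circles (library `Pool.Agent.T9h21.TB`) has a
row for every bit and two columns for every pair of bits; every assignment `x` of the bits gives a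
tour that is shortest among all tours through the centres, and in which a vertical connection in
a column is used if and only if a clause with two positive or two negative literals is satisfied.
For a given `S`, one centre in each of the `2 m ^ 2` columns of the chosen pairs is moved by one
unit (after scaling by `n`); then the length of the tour of `x` is a constant plus `4` times the
knapsack function of the chosen bits, and no tour is shorter than the constant.
-/

set_option autoImplicit false

namespace Pool.Agent.Results.MP_e361f4_lc.SemidefinitePrograms

open Pool.Agent.T9h21.SD

/-- **Semidefinite programs for the Euclidean TSP are exponentially large.**  Let `n ≥ 10 ^ 30`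
and `N ≥ n ^ 2`.  A mixed binary semidefinite program with a linear matrix inequality of order
`r`, `k` binary variables, and any number of linear equations and real variables, that solves the
Euclidean travelling salesman problem for `n` labelled points of the grid `{0, ..., N} ^ 2` with
additive error `a ≤ N / n ^ 3` and relative error `η ≤ 1 / n ^ 3` (exactly if `a = η = 0`),
satisfies `2 ^ k (r + 1) ≥ 2 ^ (n ^ (4 / 33) / 1024)`. -/
theorem result {V : Type*} [AddCommGroup V] [Module ℝ V] {r k : ℕ} (P : Program V r k)
    {n N : ℕ} {a η : ℝ} (hn : 10 ^ 30 ≤ n) (hN : n ^ 2 ≤ N) (ha : a * (n : ℝ) ^ 3 ≤ N)
    (h0 : 0 ≤ η) (hη : η * (n : ℝ) ^ 3 ≤ 1) (hP : P.Solves n N a η) :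
    (2 : ℝ) ^ ((n : ℝ) ^ (4 / 33 : ℝ) / 1024) ≤ 2 ^ k * (r + 1) :=
  main P hn hN ha h0 hη hP

end Pool.Agent.Results.MP_e361f4_lc.SemidefinitePrograms
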